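import Pool.Agent.Y280.HC.Ord2
/-!
Cyclic vectors of semigroups without adjoint eigenvectors satisfy no relation with a compactly
supported measure.
-/
set_option autoImplicit false
open MeasureTheory Filter Topology Complex Set

namespace Pool.Agent.Y280.HC

open Pool.Agent.Results.MP_84e5ad_an.LinIndepOrbit (iota norm_iota continuous_iota iota_ne_zero
  exists_M u continuous_u u_add tail_dense)

section

variable {𝕜 : Type*} [RCLike 𝕜] {X : Type*} [NormedAddCommGroup X] [NormedSpace 𝕜 X]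
  [CompleteSpace X] {T : ℝ → X →L[𝕜] X} (hTc : ∀ x, Continuous (fun t => T t x))
  (φ : X →L[𝕜] 𝕜)
  {ν : Measure ℝ} [IsFiniteMeasure ν] {a : ℝ} (ha : 0 ≤ a) (hν : ∀ᵐ s ∂ν, s ∈ Icc 0 a)
  {k : ℝ → ℂ} (hk : Integrable k ν)

include hTc ha hk in
omit [CompleteSpace X] in
theorem KK_deriv_add (j : ℕ) (l : ℂ) (x y : X) :
    iteratedDeriv j (KK ν a k (u T φ (x + y))) l
      = iteratedDeriv j (KK ν a k (u T φ x)) l + iteratedDeriv j (KK ν a k (u T φ y)) l := by
  have h1 : KK ν a k (u T φ (x + y)) = KK ν a k (u T φ x) + KK ν a k (u T φ y) := by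
    funext w
    have hi : ∀ x, Integrable (fun p => kf k (u T φ x) p *
        cexp (w * (cl a (p.1 - p.2) : ℝ))) (rho ν a) := fun x =>
      integrable_lap (kf_integrable hk (continuous_u hTc φ x)) measurable_w
        (fun _ => cl_nonneg _ _) (fun _ => cl_le ha _) w
    show ∫ p, kf k (u T φ (x + y)) p * cexp (w * (cl a (p.1 - p.2) : ℝ)) ∂(rho ν a)
      = (∫ p, kf k (u T φ x) p * cexp (w * (cl a (p.1 - p.2) : ℝ)) ∂(rho ν a))
        + ∫ p, kf k (u T φ y) p * cexp (w * (cl a (p.1 - p.2) : ℝ)) ∂(rho ν a)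
    rw [← integral_add (hi x) (hi y)]
    refine integral_congr_ae (Eventually.of_forall fun p => ?_)
    have h2 : u T φ (x + y) p.2 = u T φ x p.2 + u T φ y p.2 := by
      simp [u]
    simp only
    unfold kf
    rw [h2]
    split_ifs <;> ring
  rw [h1, iteratedDeriv_add
    (KK_differentiable ha hk (continuous_u hTc φ x)).contDiff.contDiffAt
    (KK_differentiable ha hk (continuous_u hTc φ y)).contDiff.contDiffAt]

include hTc ha hν hk in
/-- **The order hypothesis**, without eigenfunctionals. -/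
theorem order_gen (hTadd : ∀ s t : ℝ, 0 ≤ s → 0 ≤ t → T (s + t) = (T s).comp (T t))
    (hne : ∀ (l : ℂ) (ψ : X →+ ℂ), Continuous ψ →
      (∀ t, 0 ≤ t → ∀ x, ψ (T t x) = cexp (l * t) * ψ x) → ψ = 0)
    (hrel : ∀ x, ∀ t, 0 ≤ t → ∫ s, k s * u T φ x (t + s) ∂ν = 0)
    (l : ℂ) (n : ℕ) (hn : ∀ i ≤ n, iteratedDeriv i (muh ν a k) l = 0) :
    ∀ i ≤ n, ∀ x, iteratedDeriv i (KK ν a k (u T φ x)) l = 0 := by
  intro i
  induction i using Nat.strong_induction_on with
  | _ i ih =>
    intro hi
    have hmd := muh_differentiable (ν := ν) (a := a) ha hk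
    let ψ : X →+ ℂ := AddMonoidHom.mk' (fun x => iteratedDeriv i (KK ν a k (u T φ x)) l)
      (KK_deriv_add hTc φ ha hk i l)
    have hψ : ψ = 0 := by
      refine hne l ψ (continuous_KK_deriv hTc φ ha hk i l) fun t ht x => ?_
      have huc := continuous_u hTc φ x
      have hKd := KK_differentiable (ν := ν) (a := a) ha hk huc
      have h1 : KK ν a k (u T φ (T t x)) = KK ν a k (fun v => u T φ x (t + v)) := by
        refine KK_congr fun v hv => ?_
        unfold u
        rw [add_comm t v, hTadd v t hv.1 ht, ContinuousLinearMap.comp_apply]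
      have hAd : Differentiable ℂ fun w => AA (u T φ x) w t := AA_differentiable huc ht
      have h2 : KK ν a k (u T φ (T t x))
          = (fun w => cexp (w * t)) * (KK ν a k (u T φ x) - muh ν a k * fun w => AA (u T φ x) w t) := by
        rw [h1]
        funext w
        rw [KK_shift ha hν hk huc (hrel x) ht w]
        rfl
      have hdiff : ∀ j ≤ i, iteratedDeriv j (KK ν a k (u T φ x) - muh ν a k * fun w => AA (u T φ x) w t) l
          = iteratedDeriv j (KK ν a k (u T φ x)) l := by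
        intro j hj
        rw [iteratedDeriv_sub hKd.contDiff.contDiffAt (hmd.mul hAd).contDiff.contDiffAt,
          iteratedDeriv_mul_zero hmd hAd hn j (hj.trans hi), sub_zero]
      show iteratedDeriv i (KK ν a k (u T φ (T t x))) l
        = cexp (l * t) * iteratedDeriv i (KK ν a k (u T φ x)) l
      rw [h2, iteratedDeriv_mul_last (hKd.sub (hmd.mul hAd)) (by fun_prop) ?_, hdiff i le_rfl]
      intro j hj
      rw [hdiff j hj.le]
      exact ih j hj (hj.le.trans hi) x
    intro x
    exact DFunLike.congr_fun hψ x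

include hTc in
/-- Exponential growth. -/
theorem exists_growth (hTadd : ∀ s t : ℝ, 0 ≤ s → 0 ≤ t → T (s + t) = (T s).comp (T t)) :
    ∃ M ω : ℝ, 0 ≤ M ∧ 0 ≤ ω ∧ ∀ t, 0 ≤ t → ‖T t‖ ≤ M * Real.exp (ω * t) := by
  obtain ⟨M0, hM0, hM⟩ := exists_M hTc 1
  set M : ℝ := max M0 1 with hMdef
  have hM1 : 1 ≤ M := le_max_right _ _
  have hMpos : 0 < M := by linarith
  have hMb : ∀ s ∈ Icc (0:ℝ) 1, ‖T s‖ ≤ M := fun s hs => (hM s hs).trans (le_max_left _ _)
  have hclaim : ∀ n : ℕ, ∀ t : ℝ, 0 ≤ t → t ≤ n + 1 → ‖T t‖ ≤ M ^ (n + 1) := by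
    intro n
    induction n with
    | zero =>
      intro t ht ht1
      rw [zero_add, pow_one]
      exact hMb t ⟨ht, by simpa using ht1⟩
    | succ n ih =>
      intro t ht ht1
      rcases le_total t (n + 1) with h | h
      · refine (ih t ht h).trans (pow_le_pow_right₀ hM1 (by omega))
      · have h1 : 0 ≤ t - 1 := by
          have : (0:ℝ) ≤ n := Nat.cast_nonneg n
          linarith
        have h2 : T t = (T 1).comp (T (t - 1)) := by
          rw [← hTadd 1 (t - 1) zero_le_one h1]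
          congr 1
          ring
        have h3 : t - 1 ≤ n + 1 := by
          push_cast at ht1
          linarith
        rw [h2]
        refine (ContinuousLinearMap.opNorm_comp_le _ _).trans ?_
        rw [pow_succ']
        exact mul_le_mul (hMb 1 ⟨zero_le_one, le_rfl⟩) (ih _ h1 h3) (norm_nonneg _) hMpos.le
  refine ⟨M, Real.log M, hMpos.le, Real.log_nonneg hM1, fun t ht => ?_⟩
  refine (hclaim ⌊t⌋₊ t ht (Nat.lt_floor_add_one t).le).trans ?_
  rw [pow_succ']
  refine mul_le_mul_of_nonneg_left ?_ hMpos.le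
  rw [← Real.exp_log hMpos, ← Real.exp_nat_mul, Real.exp_le_exp, Real.exp_log hMpos, mul_comm]
  exact mul_le_mul_of_nonneg_left (Nat.floor_le ht) (Real.log_nonneg hM1)

end

section main

variable {𝕜 : Type*} [RCLike 𝕜] {X : Type*} [NormedAddCommGroup X] [NormedSpace 𝕜 X]
  [NormedSpace ℝ X] [CompleteSpace X] {T : ℝ → X →L[𝕜] X}
  (hTc : ∀ x, Continuous (fun t => T t x))
  {ν : Measure ℝ} [IsFiniteMeasure ν] {a : ℝ} (ha : 0 ≤ a) (hν : ∀ᵐ s ∂ν, s ∈ Icc 0 a)
  {h : ℝ → 𝕜} (hh : Integrable h ν)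

include hTc hν hh in
omit [NormedSpace ℝ X] [CompleteSpace X] [IsFiniteMeasure ν] in
theorem integrable_orbit (x : X) : Integrable (fun s => h s • T s x) ν := by
  obtain ⟨B, hB⟩ := (isCompact_Icc (a := (0:ℝ)) (b := a)).exists_bound_of_continuousOn
    (hTc x).continuousOn
  refine hh.smul_bdd B (hTc x).aestronglyMeasurable ?_
  filter_upwards [hν] with s hs
  exact hB s hs

include hTc hν hh in
omit [IsFiniteMeasure ν] in
/-- A relation at a cyclic vector is a relation at every vector. -/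
theorem rel_all (hTadd : ∀ s t : ℝ, 0 ≤ s → 0 ≤ t → T (s + t) = (T s).comp (T t)) {z : X}
    (hz : (Submodule.span 𝕜 {x | ∃ t : ℝ, 0 ≤ t ∧ x = T t z}).topologicalClosure = ⊤)
    (hzero : ∫ s, h s • T s z ∂ν = 0) : ∀ x, ∫ s, h s • T s x ∂ν = 0 := by
  obtain ⟨M, hM, hMb⟩ := exists_M hTc a
  let B0 : X →ₗ[𝕜] X :=
    { toFun := fun x => ∫ s, h s • T s x ∂ν
      map_add' := by
        intro x y
        rw [← integral_add (integrable_orbit hTc hν hh x) (integrable_orbit hTc hν hh y)]
        refine integral_congr_ae (Eventually.of_forall fun s => ?_)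
        simp only [map_add, smul_add]
      map_smul' := by
        intro c x
        rw [RingHom.id_apply, ← integral_smul]
        refine integral_congr_ae (Eventually.of_forall fun s => ?_)
        simp only [map_smul]
        rw [smul_comm] }
  let B : X →L[𝕜] X := B0.mkContinuous ((∫ s, ‖h s‖ ∂ν) * M) (by
    intro x
    show ‖∫ s, h s • T s x ∂ν‖ ≤ _
    have h1 : ∫ s, ‖h s‖ * (M * ‖x‖) ∂ν = (∫ s, ‖h s‖ ∂ν) * M * ‖x‖ := by
      rw [integral_mul_const]
      ring
    rw [← h1]
    refine norm_integral_le_of_norm_le (hh.norm.mul_const _) ?_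
    filter_upwards [hν] with s hs
    rw [norm_smul]
    exact mul_le_mul_of_nonneg_left ((T s).le_of_opNorm_le (hMb s hs) x) (norm_nonneg _))
  have hker : (LinearMap.ker (B : X →ₗ[𝕜] X)) = ⊤ := by
    rw [eq_top_iff, ← hz]
    refine Submodule.topologicalClosure_minimal _ ?_ (ContinuousLinearMap.isClosed_ker B)
    rw [Submodule.span_le]
    rintro _ ⟨t, ht, rfl⟩
    show ∫ s, h s • T s (T t z) ∂ν = 0
    have h2 : ∫ s, h s • T s (T t z) ∂ν = ∫ s, T t (h s • T s z) ∂ν := by
      refine integral_congr_ae ?_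
      filter_upwards [hν] with s hs
      rw [map_smul, ← ContinuousLinearMap.comp_apply, ← ContinuousLinearMap.comp_apply,
        ← hTadd s t hs.1 ht, ← hTadd t s ht hs.1, add_comm]
    rw [h2, ContinuousLinearMap.integral_comp_comm _ (integrable_orbit hTc hν hh z), hzero, map_zero]
  intro x
  have : x ∈ LinearMap.ker (B : X →ₗ[𝕜] X) := by rw [hker]; trivial
  exact this

theorem iota_ofReal (r : ℝ) : iota ((r : ℝ) : 𝕜) = (r : ℂ) := by
  apply Complex.ext <;> simp [iota]

/-- the embedding of the scalars as a real linear map -/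
noncomputable def iotaL : 𝕜 →L[ℝ] ℂ :=
  LinearMap.mkContinuous
    { toFun := fun x => iota x
      map_add' := fun x y => map_add _ x y
      map_smul' := fun r x => by
        rw [RCLike.real_smul_eq_coe_mul, map_mul, iota_ofReal, RingHom.id_apply, Complex.real_smul] }
    1 (fun x => by
      rw [one_mul]
      exact (norm_iota x).le)

include hTc hν hh in
omit [IsFiniteMeasure ν] in
theorem rel_scalar (hTadd : ∀ s t : ℝ, 0 ≤ s → 0 ≤ t → T (s + t) = (T s).comp (T t))
    (hall : ∀ x, ∫ s, h s • T s x ∂ν = 0) (φ : X →L[𝕜] 𝕜) (x : X) (t : ℝ) (ht : 0 ≤ t) :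
    ∫ s, (iota (h s) : ℂ) * u T φ x (t + s) ∂ν = 0 := by
  have h1 : ∫ s, (iota (h s) : ℂ) * u T φ x (t + s) ∂ν
      = ∫ s, iotaL (φ (h s • T s (T t x))) ∂ν := by
    refine integral_congr_ae ?_
    filter_upwards [hν] with s hs
    show _ = iota (φ (h s • T s (T t x)))
    rw [map_smul, smul_eq_mul, map_mul]
    unfold u
    rw [add_comm t s, hTadd s t hs.1 ht, ContinuousLinearMap.comp_apply]
  have h2 := integrable_orbit hTc hν hh (T t x)
  have h3 : Integrable (fun s => φ (h s • T s (T t x))) ν := φ.integrable_comp h2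
  rw [h1, ContinuousLinearMap.integral_comp_comm _ h3,
    ContinuousLinearMap.integral_comp_comm _ h2, hall, map_zero, map_zero]

include hTc hν hh in
/-- **Independence with respect to compactly supported measures.** -/
theorem measure_independent (hTadd : ∀ s t : ℝ, 0 ≤ s → 0 ≤ t → T (s + t) = (T s).comp (T t))
    (hne : ∀ (l : ℂ) (ψ : X →+ ℂ), Continuous ψ →
      (∀ t, 0 ≤ t → ∀ x, ψ (T t x) = cexp (l * t) * ψ x) → ψ = 0)
    (hnil : ∀ t, 0 ≤ t → T t ≠ 0) {z : X}
    (hz : (Submodule.span 𝕜 {x | ∃ t : ℝ, 0 ≤ t ∧ x = T t z}).topologicalClosure = ⊤)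
    (hzero : ∫ s, h s • T s z ∂ν = 0) : ∀ᵐ s ∂ν, h s = 0 := by
  rcases lt_or_ge a 0 with ha | ha
  · filter_upwards [hν] with s hs
    exact absurd (hs.1.trans hs.2) (not_le.2 ha)
  have hall := rel_all hTc hν hh hTadd hz hzero
  set k : ℝ → ℂ := fun s => iota (h s) with hk
  have hki : Integrable k ν := (iotaL (𝕜 := 𝕜)).integrable_comp hh
  by_contra hcon
  have hmu : ∃ l, muh ν a k l ≠ 0 := by
    by_contra hno
    push Not at hno
    refine hcon ?_
    filter_upwards [ae_zero_of_muh ha hν hki hno] with s hs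
    by_contra hs0
    exact iota_ne_zero hs0 hs
  obtain ⟨M, ω, hM, hω, hg⟩ := exists_growth hTc hTadd
  have hvan : ∀ φ : X →L[𝕜] 𝕜, ∃ b, 0 ≤ b ∧ ∀ t, b < t → φ (T t z) = 0 := by
    intro φ
    have hrel := fun x t ht => rel_scalar hTc hν hh hTadd hall φ x t ht
    obtain ⟨b, hb, hbt⟩ := vanish ha hν hki (continuous_u hTc φ z) hmu (M := ‖φ‖ * M * ‖z‖)
      (ω := ω) (by positivity) hω
      (by
        intro t ht
        unfold u
        rw [norm_iota]
        calc ‖φ (T t z)‖ ≤ ‖φ‖ * ‖T t z‖ := φ.le_opNorm _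
          _ ≤ ‖φ‖ * (M * Real.exp (ω * t) * ‖z‖) := by
            gcongr
            exact (T t).le_of_opNorm_le (hg t ht) z
          _ = _ := by ring)
      (fun t ht => hrel z t ht)
      (fun l n hn i hi => order_gen hTc φ ha hν hki hTadd hne hrel l n hn i hi z)
    refine ⟨b, hb, fun t ht => ?_⟩
    by_contra h0
    exact iota_ne_zero h0 (hbt t ht)
  -- Baire category in the dual
  let E : ℕ → Submodule 𝕜 (X →L[𝕜] 𝕜) := fun n =>
    { carrier := {φ | ∀ t : ℝ, (n : ℝ) < t → φ (T t z) = 0}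
      add_mem' := by
        intro φ ψ hφ hψ t ht
        rw [ContinuousLinearMap.add_apply, hφ t ht, hψ t ht, add_zero]
      zero_mem' := by
        intro t _
        rfl
      smul_mem' := by
        intro c φ hφ t ht
        rw [ContinuousLinearMap.smul_apply, hφ t ht, smul_zero] }
  have hEcl : ∀ n, IsClosed (E n : Set (X →L[𝕜] 𝕜)) := by
    intro n
    have h1 : (E n : Set (X →L[𝕜] 𝕜)) = ⋂ t : ℝ, ⋂ (_ : (n : ℝ) < t), {φ | φ (T t z) = 0} := by
      ext φ
      simp only [mem_iInter]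
      rfl
    rw [h1]
    refine isClosed_iInter fun t => isClosed_iInter fun _ => ?_
    exact isClosed_eq (ContinuousLinearMap.apply 𝕜 𝕜 (T t z)).continuous continuous_const
  have hEun : ⋃ n, (E n : Set (X →L[𝕜] 𝕜)) = univ := by
    refine eq_univ_of_forall fun φ => ?_
    obtain ⟨b, _, hbt⟩ := hvan φ
    obtain ⟨n, hn⟩ := exists_nat_gt b
    exact mem_iUnion.2 ⟨n, fun t ht => hbt t (hn.trans ht)⟩
  obtain ⟨n, hn⟩ := nonempty_interior_of_iUnion_of_closed hEcl hEun
  have htop := Submodule.eq_top_of_nonempty_interior' _ hn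
  have hzt : ∀ t : ℝ, (n : ℝ) < t → T t z = 0 := by
    intro t ht
    refine NormedSpace.eq_zero_of_forall_dual_eq_zero 𝕜 fun φ => ?_
    have : φ ∈ E n := by rw [htop]; trivial
    exact this t ht
  have hn1 : (0:ℝ) ≤ (n : ℝ) + 1 := by positivity
  refine hnil (n + 1) hn1 ?_
  have hker : (LinearMap.ker (T (n + 1) : X →ₗ[𝕜] X)) = ⊤ := by
    rw [eq_top_iff, ← hz]
    refine Submodule.topologicalClosure_minimal _ ?_ (ContinuousLinearMap.isClosed_ker _)
    rw [Submodule.span_le]
    rintro _ ⟨t, ht, rfl⟩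
    show T (n + 1) (T t z) = 0
    rw [← ContinuousLinearMap.comp_apply, ← hTadd _ t hn1 ht]
    exact hzt _ (by linarith)
  ext x
  have : x ∈ LinearMap.ker (T (n + 1) : X →ₗ[𝕜] X) := by rw [hker]; trivial
  exact this

end main

end Pool.Agent.Y280.HC
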