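import Mathlib
/-!
Entire functions given by integrals `∫ g(x) exp(l w(x)) dρ(x)` with a bounded weight `w`.
-/
set_option autoImplicit false
open MeasureTheory Filter Topology Complex Set

namespace Pool.Agent.Y280.HC

variable {Ω : Type*} [MeasurableSpace Ω]

/-- `∫ g(x) exp(l w(x)) dρ(x)` -/
noncomputable def lap (ρ : Measure Ω) (g : Ω → ℂ) (w : Ω → ℝ) (l : ℂ) : ℂ :=
  ∫ x, g x * cexp (l * w x) ∂ρ

variable {ρ : Measure Ω} {g : Ω → ℂ} {w : Ω → ℝ} {a : ℝ}

theorem norm_cexp_le (h0 : ∀ x, 0 ≤ w x) (h1 : ∀ x, w x ≤ a) (l : ℂ) (x : Ω) :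
    ‖cexp (l * w x)‖ ≤ Real.exp (a * ‖l‖) := by
  rw [Complex.norm_exp]
  apply Real.exp_le_exp.2
  have h2 : (l * w x).re = l.re * w x := by simp
  rw [h2]
  calc l.re * w x ≤ ‖l‖ * w x := mul_le_mul_of_nonneg_right (Complex.re_le_norm l) (h0 x)
    _ ≤ ‖l‖ * a := mul_le_mul_of_nonneg_left (h1 x) (norm_nonneg l)
    _ = a * ‖l‖ := mul_comm _ _

theorem integrable_lap (hg : Integrable g ρ) (hw : Measurable w) (h0 : ∀ x, 0 ≤ w x)
    (h1 : ∀ x, w x ≤ a) (l : ℂ) : Integrable (fun x => g x * cexp (l * w x)) ρ := by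
  refine hg.mul_bdd (c := Real.exp (a * ‖l‖)) ?_ (Eventually.of_forall fun x => norm_cexp_le h0 h1 l x)
  have : Measurable fun x => cexp (l * w x) := by fun_prop
  exact this.aestronglyMeasurable

theorem integrable_mul_w (hg : Integrable g ρ) (hw : Measurable w) (h0 : ∀ x, 0 ≤ w x)
    (h1 : ∀ x, w x ≤ a) : Integrable (fun x => g x * (w x : ℂ)) ρ := by
  refine hg.mul_bdd (c := a) ?_ (Eventually.of_forall fun x => ?_)
  · have : Measurable fun x => (w x : ℂ) := by fun_prop
    exact this.aestronglyMeasurable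
  · rw [Complex.norm_real, Real.norm_of_nonneg (h0 x)]
    exact h1 x

theorem lap_hasDerivAt (hg : Integrable g ρ) (hw : Measurable w) (h0 : ∀ x, 0 ≤ w x)
    (h1 : ∀ x, w x ≤ a) (l : ℂ) :
    HasDerivAt (lap ρ g w) (lap ρ (fun x => g x * (w x : ℂ)) w l) l := by
  have hgw := integrable_mul_w hg hw h0 h1
  have h := hasDerivAt_integral_of_dominated_loc_of_deriv_le (μ := ρ) (𝕜 := ℂ)
    (F := fun (z : ℂ) (x : Ω) => g x * cexp (z * w x))
    (F' := fun (z : ℂ) (x : Ω) => g x * (w x : ℂ) * cexp (z * w x))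
    (x₀ := l) (s := Metric.ball l 1)
    (bound := fun x => ‖g x * (w x : ℂ)‖ * Real.exp (a * (‖l‖ + 1)))
    (Metric.ball_mem_nhds l one_pos)
    (Eventually.of_forall fun z => (integrable_lap hg hw h0 h1 z).aestronglyMeasurable)
    (integrable_lap hg hw h0 h1 l)
    (integrable_lap hgw hw h0 h1 l).aestronglyMeasurable
    (Eventually.of_forall fun x z hz => by
      rw [norm_mul]
      refine mul_le_mul_of_nonneg_left ?_ (norm_nonneg _)
      refine (norm_cexp_le h0 h1 z x).trans (Real.exp_le_exp.2 ?_)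
      have ha : 0 ≤ a := (h0 x).trans (h1 x)
      refine mul_le_mul_of_nonneg_left ?_ ha
      rw [Metric.mem_ball, dist_eq_norm] at hz
      have := norm_le_norm_add_norm_sub' z l
      linarith)
    (hgw.norm.mul_const _)
    (Eventually.of_forall fun x z _ => by
      have h2 : HasDerivAt (fun z : ℂ => z * (w x : ℂ)) ((w x : ℂ)) z := by
        simpa using (hasDerivAt_id z).mul_const (w x : ℂ)
      have h3 := (h2.cexp).const_mul (g x)
      refine h3.congr_deriv ?_
      ring)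
  exact h.2

theorem lap_differentiable (hg : Integrable g ρ) (hw : Measurable w) (h0 : ∀ x, 0 ≤ w x)
    (h1 : ∀ x, w x ≤ a) : Differentiable ℂ (lap ρ g w) :=
  fun l => (lap_hasDerivAt hg hw h0 h1 l).differentiableAt

theorem integrable_mul_pow (hg : Integrable g ρ) (hw : Measurable w) (h0 : ∀ x, 0 ≤ w x)
    (h1 : ∀ x, w x ≤ a) (n : ℕ) : Integrable (fun x => g x * (w x : ℂ) ^ n) ρ := by
  induction n with
  | zero => simpa using hg
  | succ n ih =>
    have := integrable_mul_w ih hw h0 h1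
    refine this.congr (Eventually.of_forall fun x => ?_)
    simp only
    ring

theorem lap_iteratedDeriv (hg : Integrable g ρ) (hw : Measurable w) (h0 : ∀ x, 0 ≤ w x)
    (h1 : ∀ x, w x ≤ a) (n : ℕ) :
    iteratedDeriv n (lap ρ g w) = lap ρ (fun x => g x * (w x : ℂ) ^ n) w := by
  induction n with
  | zero =>
    rw [iteratedDeriv_zero]
    simp
  | succ n ih =>
    rw [iteratedDeriv_succ, ih]
    funext l
    rw [(lap_hasDerivAt (integrable_mul_pow hg hw h0 h1 n) hw h0 h1 l).deriv]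
    unfold lap
    refine integral_congr_ae (Eventually.of_forall fun x => ?_)
    simp only
    ring

theorem lap_norm_le (hg : Integrable g ρ) (hw : Measurable w) (h0 : ∀ x, 0 ≤ w x)
    (h1 : ∀ x, w x ≤ a) (l : ℂ) : ‖lap ρ g w l‖ ≤ (∫ x, ‖g x‖ ∂ρ) * Real.exp (a * ‖l‖) := by
  unfold lap
  rw [← integral_mul_const]
  refine norm_integral_le_of_norm_le (hg.norm.mul_const _) (Eventually.of_forall fun x => ?_)
  rw [norm_mul]
  exact mul_le_mul_of_nonneg_left (norm_cexp_le h0 h1 l x) (norm_nonneg _)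

/-! ### Quotients of entire functions -/

/-- If all derivatives of `K` vanish at a point whenever those of `h` do (up to every given order),
then `K = h G` with `G` entire. -/
theorem exists_quotient {K h : ℂ → ℂ} (hK : Differentiable ℂ K) (hh : Differentiable ℂ h)
    (hne : ∃ z, h z ≠ 0)
    (hord : ∀ z : ℂ, ∀ n : ℕ, (∀ i ≤ n, iteratedDeriv i h z = 0) →
      ∀ i ≤ n, iteratedDeriv i K z = 0) :
    ∃ G : ℂ → ℂ, Differentiable ℂ G ∧ ∀ z, K z = h z * G z := by
  classical
  obtain ⟨z1, hz1⟩ := hne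
  have hAn : AnalyticOnNhd ℂ h Set.univ := fun z _ => hh.analyticAt z
  have hiso : ∀ z, ∀ᶠ y in 𝓝[≠] z, h y ≠ 0 := by
    intro z
    rcases (hh.analyticAt z).eventually_eq_zero_or_eventually_ne_zero with h1 | h1
    · exfalso
      exact hz1 (hAn.eqOn_zero_of_preconnected_of_eventuallyEq_zero isPreconnected_univ
        (Set.mem_univ z) h1 (Set.mem_univ z1))
    · exact h1
  -- local quotients
  have hloc : ∀ z0, ∃ g : ℂ → ℂ, AnalyticAt ℂ g z0 ∧ ∀ᶠ z in 𝓝 z0, K z = h z * g z := by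
    intro z0
    have hhan := hh.analyticAt z0
    have hKan := hK.analyticAt z0
    have htop : analyticOrderAt h z0 ≠ ⊤ := by
      intro htop
      rw [analyticOrderAt_eq_top] at htop
      have h2 : ∀ᶠ y in 𝓝[≠] z0, h y = 0 := htop.filter_mono nhdsWithin_le_nhds
      obtain ⟨y, hy1, hy2⟩ := ((hiso z0).and h2).exists
      exact hy1 hy2
    obtain ⟨m, hm⟩ := ENat.ne_top_iff_exists.1 htop
    have hmK : (m : ℕ∞) ≤ analyticOrderAt K z0 := by
      rw [natCast_le_analyticOrderAt_iff_iteratedDeriv_eq_zero hKan]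
      intro i hi
      have h3 : (m : ℕ∞) ≤ analyticOrderAt h z0 := hm.le
      rw [natCast_le_analyticOrderAt_iff_iteratedDeriv_eq_zero hhan] at h3
      exact hord z0 i (fun j hj => h3 j (lt_of_le_of_lt hj hi)) i le_rfl
    obtain ⟨h1, h1an, h1ne, h1eq⟩ := (hhan.analyticOrderAt_eq_natCast (n := m)).1 hm.symm
    obtain ⟨K1, K1an, K1eq⟩ := (natCast_le_analyticOrderAt hKan).1 hmK
    refine ⟨fun z => K1 z / h1 z, K1an.div h1an h1ne, ?_⟩
    have hne1 : ∀ᶠ z in 𝓝 z0, h1 z ≠ 0 := h1an.continuousAt.eventually_ne h1ne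
    filter_upwards [h1eq, K1eq, hne1] with z e1 e2 e3
    rw [e1, e2, smul_eq_mul, smul_eq_mul]
    field_simp
  choose g hgan hgeq using hloc
  refine ⟨fun z => g z z, ?_, fun z => (hgeq z).self_of_nhds⟩
  intro z0
  have hev : (fun z => g z z) =ᶠ[𝓝 z0] g z0 := by
    have h1 : ∀ᶠ z in 𝓝 z0, z ≠ z0 → h z ≠ 0 := by
      have := hiso z0
      rwa [eventually_nhdsWithin_iff] at this
    filter_upwards [h1, hgeq z0] with z e1 e2
    by_cases hz : z = z0
    · rw [hz]
    · have e3 := (hgeq z).self_of_nhds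
      rw [e3] at e2
      exact mul_left_cancel₀ (e1 hz) e2
  exact ((hgan z0).congr hev.symm).differentiableAt

end Pool.Agent.Y280.HC
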