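import Pool.Agent.Y280.HC.Van
import Pool.Agent.Results.MP_84e5ad_an.LinIndepOrbit
/-!
Uniqueness for the Laplace transform of a compactly supported measure, and the order hypothesis for
orbit functions of hypercyclic vectors.
-/
set_option autoImplicit false
open MeasureTheory Filter Topology Complex Set

namespace Pool.Agent.Y280.HC

open Pool.Agent.Results.MP_84e5ad_an.LinIndepOrbit (iota norm_iota continuous_iota iota_ne_zero
  exists_M u continuous_u u_add tail_dense)

/-- A finite measure `k dν` with compact support whose Laplace transform vanishes is zero. -/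
theorem ae_zero_of_muh {ν : Measure ℝ} [IsFiniteMeasure ν] {a : ℝ} (ha : 0 ≤ a)
    (hν : ∀ᵐ s ∂ν, s ∈ Icc 0 a) {k : ℝ → ℂ} (hk : Integrable k ν) (h : ∀ l, muh ν a k l = 0) :
    ∀ᵐ s ∂ν, k s = 0 := by
  have hint : ∀ {F : ℝ → ℂ}, Continuous F → Integrable (fun s => k s * F s) ν := by
    intro F hF
    obtain ⟨B, hB⟩ := (isCompact_Icc (a := (0:ℝ)) (b := a)).exists_bound_of_continuousOn
      hF.continuousOn
    refine hk.mul_bdd (c := B) hF.aestronglyMeasurable ?_
    filter_upwards [hν] with s hs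
    exact hB s hs
  have hmom : ∀ n : ℕ, ∫ s, k s * (s : ℂ) ^ n ∂ν = 0 := by
    intro n
    have h1 := lap_iteratedDeriv hk (measurable_cl a) (fun _ => cl_nonneg _ _)
      (fun _ => cl_le ha _) n
    have h2 : lap ν k (cl a) = fun _ => 0 := funext h
    rw [h2] at h1
    have h3 := congrFun h1 0
    have h4 : iteratedDeriv n (fun _ : ℂ => (0:ℂ)) 0 = 0 := by simp
    rw [h4] at h3
    rw [h3]
    unfold lap
    refine integral_congr_ae ?_
    filter_upwards [hν] with s hs
    rw [cl_eq hs]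
    simp
  have hpoly : ∀ p : Polynomial ℝ, ∫ s, k s * ((p.eval s : ℝ) : ℂ) ∂ν = 0 := by
    intro p
    induction p using Polynomial.induction_on' with
    | add p q hp hq =>
      have h1 : ∀ s : ℝ, k s * (((p + q).eval s : ℝ) : ℂ)
          = k s * ((p.eval s : ℝ) : ℂ) + k s * ((q.eval s : ℝ) : ℂ) := by
        intro s
        rw [Polynomial.eval_add]
        push_cast
        ring
      simp only [h1]
      rw [integral_add (hint (F := fun s => ((p.eval s : ℝ) : ℂ))
        (Complex.continuous_ofReal.comp p.continuous))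
        (hint (F := fun s => ((q.eval s : ℝ) : ℂ))
        (Complex.continuous_ofReal.comp q.continuous)), hp, hq, add_zero]
    | monomial n b =>
      have h1 : ∀ s : ℝ, k s * (((Polynomial.monomial n b).eval s : ℝ) : ℂ)
          = (b : ℂ) * (k s * (s : ℂ) ^ n) := by
        intro s
        rw [Polynomial.eval_monomial]
        push_cast
        ring
      simp only [h1]
      rw [integral_const_mul, hmom, mul_zero]
  refine ae_eq_zero_of_integral_contDiff_smul_eq_zero hk.locallyIntegrable fun g hg _ => ?_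
  have hgc : Continuous g := hg.continuous
  have hI : 0 ≤ ∫ s, ‖k s‖ ∂ν := integral_nonneg fun _ => norm_nonneg _
  by_contra hne
  have hpos : 0 < ‖∫ s, g s • k s ∂ν‖ := norm_pos_iff.2 hne
  set ε : ℝ := ‖∫ s, g s • k s ∂ν‖ / (2 * ((∫ s, ‖k s‖ ∂ν) + 1)) with hε
  have hεpos : 0 < ε := by positivity
  obtain ⟨p, hp⟩ := exists_polynomial_near_of_continuousOn 0 a g hgc.continuousOn ε hεpos
  have h1 : ∫ s, g s • k s ∂ν = ∫ s, k s * (((g s - p.eval s : ℝ)) : ℂ) ∂ν := by
    have h2 : ∀ s : ℝ, k s * (((g s - p.eval s : ℝ)) : ℂ)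
        = g s • k s - k s * ((p.eval s : ℝ) : ℂ) := by
      intro s
      rw [Complex.real_smul]
      push_cast
      ring
    simp only [h2]
    rw [integral_sub, hpoly, sub_zero]
    · have := hint (F := fun s => (g s : ℂ)) (by fun_prop)
      refine this.congr (Eventually.of_forall fun s => ?_)
      simp only [Complex.real_smul]
      ring
    · exact hint (F := fun s => ((p.eval s : ℝ) : ℂ))
        (Complex.continuous_ofReal.comp p.continuous)
  have h3 : ‖∫ s, g s • k s ∂ν‖ ≤ (∫ s, ‖k s‖ ∂ν) * ε := by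
    rw [h1, ← integral_mul_const]
    refine norm_integral_le_of_norm_le (hk.norm.mul_const _) ?_
    filter_upwards [hν] with s hs
    rw [norm_mul, Complex.norm_real, Real.norm_eq_abs, abs_sub_comm]
    exact mul_le_mul_of_nonneg_left (hp s hs).le (norm_nonneg _)
  have h4 : (∫ s, ‖k s‖ ∂ν) * ε ≤ ‖∫ s, g s • k s ∂ν‖ / 2 := by
    rw [hε, mul_div_assoc', div_le_div_iff₀ (by positivity) (by norm_num)]
    nlinarith [hpos.le, hI]
  linarith

section orbit

variable {𝕜 : Type*} [RCLike 𝕜] {X : Type*} [NormedAddCommGroup X] [NormedSpace 𝕜 X]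
  [CompleteSpace X] {T : ℝ → X →L[𝕜] X} (hTc : ∀ x, Continuous (fun t => T t x))
  (φ : X →L[𝕜] 𝕜)
  {ν : Measure ℝ} [IsFiniteMeasure ν] {a : ℝ} (ha : 0 ≤ a) (hν : ∀ᵐ s ∂ν, s ∈ Icc 0 a)
  {k : ℝ → ℂ} (hk : Integrable k ν)

omit [CompleteSpace X] [IsFiniteMeasure ν] in
/-- `KK` only sees the values of the function on `[0,a]`. -/
theorem KK_congr {f g : ℝ → ℂ} (h : ∀ u ∈ Icc 0 a, f u = g u) : KK ν a k f = KK ν a k g := by
  funext l
  unfold KK lap
  refine integral_congr_ae ?_
  filter_upwards [ae_snd (ν := ν) (a := a)] with p hp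
  unfold kf
  rw [h _ hp]

include hTc ha hk in
/-- Continuity of the derivatives of the transform in the vector. -/
theorem continuous_KK_deriv (j : ℕ) (l : ℂ) :
    Continuous fun x => iteratedDeriv j (KK ν a k (u T φ x)) l := by
  obtain ⟨M, hM, hMb⟩ := exists_M hTc a
  have hfb : ∀ x, ∀ s ∈ Icc 0 a, ‖u T φ x s‖ ≤ ‖φ‖ * (M * ‖x‖) := by
    intro x s hs
    unfold u
    rw [norm_iota]
    refine (φ.le_opNorm _).trans ?_
    exact mul_le_mul_of_nonneg_left ((T s).le_of_opNorm_le (hMb s hs) x) (norm_nonneg _)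
  have hform : ∀ x, iteratedDeriv j (KK ν a k (u T φ x)) l
      = ∫ p, (kf k (u T φ x) p * ((cl a (p.1 - p.2) : ℝ) : ℂ) ^ j) *
        cexp (l * (cl a (p.1 - p.2) : ℝ)) ∂(rho ν a) := by
    intro x
    unfold KK
    rw [lap_iteratedDeriv (kf_integrable hk (continuous_u hTc φ x)) measurable_w
      (fun _ => cl_nonneg _ _) (fun _ => cl_le ha _) j]
    rfl
  have hi : ∀ x, Integrable (fun p => (kf k (u T φ x) p * ((cl a (p.1 - p.2) : ℝ) : ℂ) ^ j) *
        cexp (l * (cl a (p.1 - p.2) : ℝ))) (rho ν a) := by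
    intro x
    exact integrable_lap (integrable_mul_pow (kf_integrable hk (continuous_u hTc φ x)) measurable_w
      (fun _ => cl_nonneg _ _) (fun _ => cl_le ha _) j) measurable_w
      (fun _ => cl_nonneg _ _) (fun _ => cl_le ha _) l
  set C : ℝ := (∫ p, ‖k p.1‖ ∂(rho ν a)) * (‖φ‖ * M) * (a ^ j * Real.exp (a * ‖l‖)) with hC
  have hC1 : 0 ≤ ∫ p, ‖k p.1‖ ∂(rho ν a) := integral_nonneg fun _ => norm_nonneg _
  have hCnn : 0 ≤ C := by positivity
  have hlip : ∀ x y, ‖iteratedDeriv j (KK ν a k (u T φ x)) l - iteratedDeriv j (KK ν a k (u T φ y)) l‖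
      ≤ C * ‖x - y‖ := by
    intro x y
    rw [hform x, hform y, ← integral_sub (hi x) (hi y)]
    have h1 : ∀ p : ℝ × ℝ, (kf k (u T φ x) p * ((cl a (p.1 - p.2) : ℝ) : ℂ) ^ j) *
        cexp (l * (cl a (p.1 - p.2) : ℝ)) - (kf k (u T φ y) p * ((cl a (p.1 - p.2) : ℝ) : ℂ) ^ j) *
        cexp (l * (cl a (p.1 - p.2) : ℝ)) = (kf k (u T φ (x - y)) p * ((cl a (p.1 - p.2) : ℝ) : ℂ) ^ j) *
        cexp (l * (cl a (p.1 - p.2) : ℝ)) := by
      intro p
      have h2 : u T φ (x - y) p.2 = u T φ x p.2 - u T φ y p.2 := by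
        simp [u]
      unfold kf
      rw [h2]
      split_ifs <;> ring
    simp only [h1]
    have h3 : ∫ p, ‖kf k (u T φ (x - y)) p‖ * (a ^ j * Real.exp (a * ‖l‖)) ∂(rho ν a) ≤ C * ‖x - y‖ := by
      rw [integral_mul_const]
      have h4 := kf_norm_le (ν := ν) (a := a) hk (continuous_u hTc φ (x - y)) (hfb (x - y)) (by positivity)
      calc _ ≤ ((∫ p, ‖k p.1‖ ∂(rho ν a)) * (‖φ‖ * (M * ‖x - y‖))) * (a ^ j * Real.exp (a * ‖l‖)) := by
            gcongr
        _ = C * ‖x - y‖ := by rw [hC]; ring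
    refine le_trans ?_ h3
    refine norm_integral_le_of_norm_le
      ((kf_integrable hk (continuous_u hTc φ (x - y))).norm.mul_const _)
      (Eventually.of_forall fun p => ?_)
    rw [norm_mul, norm_mul, norm_pow, Complex.norm_real, Real.norm_eq_abs,
      abs_of_nonneg (cl_nonneg _ _), mul_assoc]
    refine mul_le_mul_of_nonneg_left ?_ (norm_nonneg _)
    refine mul_le_mul (pow_le_pow_left₀ (cl_nonneg _ _) (cl_le ha _) _)
      (norm_cexp_le (w := fun p : ℝ × ℝ => cl a (p.1 - p.2)) (fun _ => cl_nonneg _ _)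
        (fun _ => cl_le ha _) l p) (norm_nonneg _) (by positivity)
  refine (LipschitzWith.of_dist_le_mul (K := ⟨C, hCnn⟩) fun x y => ?_).continuous
  rw [dist_eq_norm, dist_eq_norm]
  exact hlip x y

end orbit

end Pool.Agent.Y280.HC
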