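import Pool.Agent.Y280.HC.Ord
/-!
The order hypothesis for orbit functions of hypercyclic vectors, and the uniqueness theorem.
-/
set_option autoImplicit false
open MeasureTheory Filter Topology Complex Set

namespace Pool.Agent.Y280.HC

open Pool.Agent.Results.MP_84e5ad_an.LinIndepOrbit (iota norm_iota continuous_iota iota_ne_zero
  exists_M u continuous_u u_add tail_dense)

variable {𝕜 : Type*} [RCLike 𝕜] {X : Type*} [NormedAddCommGroup X] [NormedSpace 𝕜 X]
  [CompleteSpace X] {T : ℝ → X →L[𝕜] X} (hTc : ∀ x, Continuous (fun t => T t x))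

omit [CompleteSpace X] in
/-- A continuous scalar function which is multiplied by `exp(l t)` along a dense orbit vanishes. -/
theorem no_eigen_one {z : X} (hz : Dense {x | ∃ t : ℝ, 0 ≤ t ∧ x = T t z}) {ψ : X → ℂ}
    (hψ : Continuous ψ) (h0 : ψ 0 = 0) (h2 : ψ ((2 : 𝕜) • z) = 2 * ψ z) (l : ℂ)
    (hrel : ∀ t : ℝ, 0 ≤ t → ψ (T t z) = cexp (l * t) * ψ z) : ψ z = 0 := by
  have hn : ∀ t : ℝ, 0 ≤ t → ‖ψ (T t z)‖ = Real.exp (l.re * t) * ‖ψ z‖ := by
    intro t ht
    rw [hrel t ht, norm_mul, Complex.norm_exp]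
    simp
  rcases le_total 0 l.re with hl | hl
  · have hcl : IsClosed {x | ‖ψ z‖ ≤ ‖ψ x‖} := isClosed_le continuous_const hψ.norm
    have hsub : {x | ∃ t : ℝ, 0 ≤ t ∧ x = T t z} ⊆ {x | ‖ψ z‖ ≤ ‖ψ x‖} := by
      rintro _ ⟨t, ht, rfl⟩
      rw [mem_setOf_eq, hn t ht]
      exact le_mul_of_one_le_left (norm_nonneg _) (Real.one_le_exp (mul_nonneg hl ht))
    have := closure_minimal hsub hcl (hz 0)
    rw [mem_setOf_eq, h0, norm_zero] at this
    exact norm_eq_zero.1 (le_antisymm this (norm_nonneg _))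
  · have hcl : IsClosed {x | ‖ψ x‖ ≤ ‖ψ z‖} := isClosed_le hψ.norm continuous_const
    have hsub : {x | ∃ t : ℝ, 0 ≤ t ∧ x = T t z} ⊆ {x | ‖ψ x‖ ≤ ‖ψ z‖} := by
      rintro _ ⟨t, ht, rfl⟩
      rw [mem_setOf_eq, hn t ht]
      exact mul_le_of_le_one_left (norm_nonneg _)
        (Real.exp_le_one_iff.2 (mul_nonpos_of_nonpos_of_nonneg hl ht))
    have := closure_minimal hsub hcl (hz ((2 : 𝕜) • z))
    rw [mem_setOf_eq, h2, norm_mul] at this
    have h3 : ‖(2:ℂ)‖ = 2 := by simp
    rw [h3] at this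
    have h4 := norm_nonneg (ψ z)
    exact norm_eq_zero.1 (by linarith)

theorem iteratedDeriv_mul_zero {f g : ℂ → ℂ} (hf : Differentiable ℂ f) (hg : Differentiable ℂ g)
    {l : ℂ} {n : ℕ} (h : ∀ i ≤ n, iteratedDeriv i f l = 0) : ∀ i ≤ n, iteratedDeriv i (f * g) l = 0 := by
  intro i hi
  rw [iteratedDeriv_mul hf.contDiff.contDiffAt hg.contDiff.contDiffAt]
  refine Finset.sum_eq_zero fun j hj => ?_
  rw [h j ((Nat.lt_succ_iff.1 (Finset.mem_range.1 hj)).trans hi)]
  ring

theorem iteratedDeriv_mul_last {f g : ℂ → ℂ} (hf : Differentiable ℂ f) (hg : Differentiable ℂ g)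
    {l : ℂ} {n : ℕ} (h : ∀ i < n, iteratedDeriv i f l = 0) :
    iteratedDeriv n (g * f) l = g l * iteratedDeriv n f l := by
  rw [iteratedDeriv_mul hg.contDiff.contDiffAt hf.contDiff.contDiffAt,
    Finset.sum_eq_single 0]
  · simp
  · intro j hj hj0
    rw [h (n - j) (by
      have := Finset.mem_range.1 hj
      omega)]
    ring
  · intro h1
    simp at h1

theorem AA_differentiable {f : ℝ → ℂ} (hf : Continuous f) {b : ℝ} (hA : 0 ≤ b) :
    Differentiable ℂ fun l => AA f l b := by
  intro l0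
  have h1 : (fun l => AA f l b) = fun l => cexp (-(l * b)) *
      lap (volume.restrict (Ioc 0 b)) f (fun u => cl b (b - u)) l := by
    funext l
    unfold AA lap
    rw [intervalIntegral.integral_of_le hA, ← integral_const_mul]
    refine setIntegral_congr_fun measurableSet_Ioc fun u hu => ?_
    have h2 : cl b (b - u) = b - u := cl_eq ⟨by linarith [hu.2], by linarith [hu.1.le]⟩
    simp only [h2]
    rw [mul_comm (f u), ← mul_assoc, ← Complex.exp_add]
    congr 2
    push_cast
    ring
  rw [h1]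
  have h3 : Integrable f (volume.restrict (Ioc 0 b)) :=
    (hf.integrableOn_Icc (a := (0:ℝ)) (b := b)).mono_set Ioc_subset_Icc_self
  have h4 := lap_differentiable h3 (w := fun u => cl b (b - u)) (a := b)
    ((measurable_cl b).comp (measurable_const.sub measurable_id)) (fun _ => cl_nonneg _ _)
    (fun _ => cl_le hA _)
  have h5 : Differentiable ℂ fun l : ℂ => cexp (-(l * b)) := by fun_prop
  exact (h5.mul h4) l0

variable (φ : X →L[𝕜] 𝕜)
  {ν : Measure ℝ} [IsFiniteMeasure ν] {a : ℝ} (ha : 0 ≤ a) (hν : ∀ᵐ s ∂ν, s ∈ Icc 0 a)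
  {k : ℝ → ℂ} (hk : Integrable k ν)

include hTc ha hν hk in
/-- **The order hypothesis.** -/
theorem order_hyp (hTadd : ∀ s t : ℝ, 0 ≤ s → 0 ≤ t → T (s + t) = (T s).comp (T t))
    {z : X} (hz : Dense {x | ∃ t : ℝ, 0 ≤ t ∧ x = T t z})
    (hrel : ∀ t, 0 ≤ t → ∫ s, k s * u T φ z (t + s) ∂ν = 0)
    (l : ℂ) (n : ℕ) (hn : ∀ i ≤ n, iteratedDeriv i (muh ν a k) l = 0) :
    ∀ i ≤ n, iteratedDeriv i (KK ν a k (u T φ z)) l = 0 := by
  intro i
  induction i using Nat.strong_induction_on with
  | _ i ih =>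
    intro hi
    have huc := continuous_u hTc φ z
    have hKd := KK_differentiable (ν := ν) (a := a) ha hk huc
    have hmd := muh_differentiable (ν := ν) (a := a) ha hk
    refine no_eigen_one hz (ψ := fun x => iteratedDeriv i (KK ν a k (u T φ x)) l)
      (continuous_KK_deriv hTc φ ha hk i l) ?_ ?_ l ?_
    · have h1 : KK ν a k (u T φ (0 : X)) = fun _ => 0 := by
        funext w
        unfold KK lap kf
        simp [u]
      show iteratedDeriv i (KK ν a k (u T φ (0 : X))) l = 0
      rw [h1]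
      simp
    · have h1 : KK ν a k (u T φ ((2 : 𝕜) • z)) = fun w => 2 * KK ν a k (u T φ z) w := by
        funext w
        unfold KK lap
        rw [← integral_const_mul]
        refine integral_congr_ae (Eventually.of_forall fun p => ?_)
        simp only
        have h2 : u T φ ((2 : 𝕜) • z) p.2 = 2 * u T φ z p.2 := by
          unfold u
          rw [map_smul, map_smul, smul_eq_mul, map_mul, map_ofNat]
        unfold kf
        rw [h2]
        split_ifs <;> ring
      show iteratedDeriv i (KK ν a k (u T φ ((2 : 𝕜) • z))) l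
        = 2 * iteratedDeriv i (KK ν a k (u T φ z)) l
      rw [h1, iteratedDeriv_const_mul _ hKd.contDiff.contDiffAt]
    · intro t ht
      have h1 : KK ν a k (u T φ (T t z)) = KK ν a k (fun v => u T φ z (t + v)) := by
        refine KK_congr fun v hv => ?_
        unfold u
        rw [add_comm t v, hTadd v t hv.1 ht, ContinuousLinearMap.comp_apply]
      have hAd : Differentiable ℂ fun w => AA (u T φ z) w t := AA_differentiable huc ht
      have h2 : KK ν a k (u T φ (T t z))
          = (fun w => cexp (w * t)) * (KK ν a k (u T φ z) - muh ν a k * fun w => AA (u T φ z) w t) := by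
        rw [h1]
        funext w
        rw [KK_shift ha hν hk huc hrel ht w]
        rfl
      have hdiff : ∀ j ≤ i, iteratedDeriv j (KK ν a k (u T φ z) - muh ν a k * fun w => AA (u T φ z) w t) l
          = iteratedDeriv j (KK ν a k (u T φ z)) l := by
        intro j hj
        rw [iteratedDeriv_sub hKd.contDiff.contDiffAt (hmd.mul hAd).contDiff.contDiffAt,
          iteratedDeriv_mul_zero hmd hAd hn j (hj.trans hi), sub_zero]
      show iteratedDeriv i (KK ν a k (u T φ (T t z))) l
        = cexp (l * t) * iteratedDeriv i (KK ν a k (u T φ z)) l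
      rw [h2, iteratedDeriv_mul_last (hKd.sub (hmd.mul hAd)) (by fun_prop) ?_, hdiff i le_rfl]
      intro j hj
      rw [hdiff j hj.le]
      exact ih j hj (hj.le.trans hi)

end Pool.Agent.Y280.HC
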