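import Pool.Agent.Y280.HC.Lap
/-!
The Carleman type transform of a function annihilated by a measure, and its behaviour under shifts.
-/
set_option autoImplicit false
open MeasureTheory Filter Topology Complex Set

namespace Pool.Agent.Y280.HC

/-- clamping to `[0,a]` -/
noncomputable def cl (a r : ℝ) : ℝ := max 0 (min r a)

theorem cl_nonneg (a r : ℝ) : 0 ≤ cl a r := le_max_left _ _

theorem cl_le {a : ℝ} (ha : 0 ≤ a) (r : ℝ) : cl a r ≤ a := max_le ha (min_le_right _ _)

theorem cl_eq {a r : ℝ} (hr : r ∈ Icc 0 a) : cl a r = r := by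
  unfold cl
  rw [min_eq_left hr.2, max_eq_right hr.1]

theorem measurable_cl (a : ℝ) : Measurable (cl a) := by
  unfold cl
  fun_prop

/-- the Laplace transform of `k dν` -/
noncomputable def muh (ν : Measure ℝ) (a : ℝ) (k : ℝ → ℂ) (l : ℂ) : ℂ := lap ν k (cl a) l

/-- the weight of the double integral -/
noncomputable def kf (k f : ℝ → ℂ) (p : ℝ × ℝ) : ℂ := k p.1 * (if p.2 ≤ p.1 then f p.2 else 0)

/-- the measure of the double integral -/
noncomputable def rho (ν : Measure ℝ) (a : ℝ) : Measure (ℝ × ℝ) :=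
  ν.prod (volume.restrict (Icc 0 a))

/-- `∫ k(s) ∫_0^s exp(l(s-u)) f(u) du dν(s)`, as a double integral -/
noncomputable def KK (ν : Measure ℝ) (a : ℝ) (k f : ℝ → ℂ) (l : ℂ) : ℂ :=
  lap (rho ν a) (kf k f) (fun p => cl a (p.1 - p.2)) l

/-- `∫_0^x exp(-lv) f(v) dv` -/
noncomputable def AA (f : ℝ → ℂ) (l : ℂ) (x : ℝ) : ℂ := ∫ v in (0:ℝ)..x, cexp (-(l * v)) * f v

variable {ν : Measure ℝ} [IsFiniteMeasure ν] {a : ℝ} (ha : 0 ≤ a) (hν : ∀ᵐ s ∂ν, s ∈ Icc 0 a)
  {k : ℝ → ℂ} (hk : Integrable k ν) {f : ℝ → ℂ} (hf : Continuous f)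

instance : IsFiniteMeasure (volume.restrict (Icc (0:ℝ) a)) :=
  ⟨by rw [Measure.restrict_apply_univ]; exact isCompact_Icc.measure_lt_top⟩

omit [IsFiniteMeasure ν] in
theorem ae_snd : ∀ᵐ p ∂(rho ν a), p.2 ∈ Icc 0 a := by
  unfold rho
  have h1 : ∀ᵐ u ∂(volume.restrict (Icc (0:ℝ) a)), u ∈ Icc 0 a :=
    ae_restrict_mem measurableSet_Icc
  exact Measure.quasiMeasurePreserving_snd.ae h1

include hν in
theorem ae_fst : ∀ᵐ p ∂(rho ν a), p.1 ∈ Icc 0 a := by
  unfold rho
  exact Measure.quasiMeasurePreserving_fst.ae hν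

include hf in
theorem kf_bound {B : ℝ} (hB : ∀ u ∈ Icc 0 a, ‖f u‖ ≤ B) (hB0 : 0 ≤ B) :
    ∀ᵐ p ∂(rho ν a), ‖(if p.2 ≤ p.1 then f p.2 else 0 : ℂ)‖ ≤ B := by
  filter_upwards [ae_snd (ν := ν) (a := a)] with p hp
  split_ifs
  · exact hB _ hp
  · rw [norm_zero]
    exact hB0

include hk hf in
theorem kf_integrable : Integrable (kf k f) (rho ν a) := by
  obtain ⟨B, hB⟩ := (isCompact_Icc (a := (0:ℝ)) (b := a)).exists_bound_of_continuousOn hf.continuousOn
  have h1 : Integrable (fun p : ℝ × ℝ => k p.1) (rho ν a) := hk.comp_fst _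
  refine h1.mul_bdd (c := max B 0) ?_ (kf_bound hf (fun u hu => (hB u hu).trans (le_max_left _ _))
    (le_max_right _ _))
  have hm : Measurable fun p : ℝ × ℝ => (if p.2 ≤ p.1 then f p.2 else 0 : ℂ) :=
    Measurable.ite (measurableSet_le measurable_snd measurable_fst)
      (hf.measurable.comp measurable_snd) measurable_const
  exact hm.aestronglyMeasurable

include hk hf in
theorem kf_norm_le {B : ℝ} (hB : ∀ u ∈ Icc 0 a, ‖f u‖ ≤ B) (hB0 : 0 ≤ B) :
    ∫ p, ‖kf k f p‖ ∂(rho ν a) ≤ (∫ p, ‖k p.1‖ ∂(rho ν a)) * B := by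
  have h1 : Integrable (fun p : ℝ × ℝ => k p.1) (rho ν a) := hk.comp_fst _
  rw [← integral_mul_const]
  refine integral_mono_ae (kf_integrable hk hf).norm (h1.norm.mul_const _) ?_
  filter_upwards [kf_bound (ν := ν) hf hB hB0] with p hp
  unfold kf
  rw [norm_mul]
  exact mul_le_mul_of_nonneg_left hp (norm_nonneg _)

theorem measurable_w : Measurable (fun p : ℝ × ℝ => cl a (p.1 - p.2)) :=
  (measurable_cl a).comp (measurable_fst.sub measurable_snd)

include ha hk hf in
theorem KK_differentiable : Differentiable ℂ (KK ν a k f) :=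
  lap_differentiable (kf_integrable hk hf) measurable_w (fun _ => cl_nonneg _ _) fun _ => cl_le ha _

include ha hk in
theorem muh_differentiable : Differentiable ℂ (muh ν a k) :=
  lap_differentiable hk (measurable_cl a) (fun _ => cl_nonneg _ _) fun _ => cl_le ha _

include ha hk hf in
theorem KK_norm_le {B : ℝ} (hB : ∀ u ∈ Icc 0 a, ‖f u‖ ≤ B) (hB0 : 0 ≤ B) (l : ℂ) :
    ‖KK ν a k f l‖ ≤ (∫ p, ‖k p.1‖ ∂(rho ν a)) * B * Real.exp (a * ‖l‖) := by
  refine (lap_norm_le (kf_integrable hk hf) measurable_w (fun _ => cl_nonneg _ _)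
    (fun _ => cl_le ha _) l).trans ?_
  gcongr
  exact kf_norm_le hk hf hB hB0

include hf in
theorem continuous_AA_integrand (l : ℂ) : Continuous fun v : ℝ => cexp (-(l * v)) * f v := by
  fun_prop

include ha hν hk hf in
/-- the iterated form of the double integral -/
theorem KK_eq (l : ℂ) : KK ν a k f l = ∫ s, k s * (cexp (l * s) * AA f l s) ∂ν := by
  have hint := integrable_lap (kf_integrable (ν := ν) (a := a) hk hf) measurable_w
    (fun _ => cl_nonneg _ _) (fun _ => cl_le ha _) l
  unfold KK lap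
  unfold rho at hint ⊢
  rw [integral_prod _ hint]
  refine integral_congr_ae ?_
  filter_upwards [hν] with s hs
  have h1 : ∀ u ∈ Icc (0:ℝ) a, kf k f (s, u) * cexp (l * (cl a (s - u) : ℝ))
      = (Iic s).indicator (fun u => k s * (cexp (l * s) * (cexp (-(l * u)) * f u))) u := by
    intro u hu
    unfold kf
    by_cases hus : u ≤ s
    · rw [indicator_of_mem (show u ∈ Iic s from hus)]
      have h2 : cl a (s - u) = s - u := cl_eq ⟨by linarith [hu.1], by linarith [hu.1, hs.2]⟩
      simp only [if_pos hus, h2]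
      have h3 : cexp (l * ((s - u : ℝ) : ℂ)) = cexp (l * s) * cexp (-(l * u)) := by
        rw [← Complex.exp_add]
        congr 1
        push_cast
        ring
      rw [h3]
      ring
    · rw [indicator_of_notMem (show u ∉ Iic s from hus)]
      simp only [if_neg hus, mul_zero, zero_mul]
  rw [setIntegral_congr_fun measurableSet_Icc h1, setIntegral_indicator measurableSet_Iic]
  have h4 : Icc (0:ℝ) a ∩ Iic s = Icc 0 s := by
    ext u
    simp only [mem_inter_iff, mem_Icc, mem_Iic]
    constructor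
    · rintro ⟨⟨h1, _⟩, h3⟩
      exact ⟨h1, h3⟩
    · rintro ⟨h1, h2⟩
      exact ⟨⟨h1, h2.trans hs.2⟩, h2⟩
  rw [h4, integral_Icc_eq_integral_Ioc, ← intervalIntegral.integral_of_le hs.1]
  unfold AA
  rw [intervalIntegral.integral_const_mul, intervalIntegral.integral_const_mul]

include hf in
theorem AA_shift (l : ℂ) (t x : ℝ) :
    AA (fun u => f (t + u)) l x = cexp (l * t) * (AA f l (t + x) - AA f l t) := by
  have hc := continuous_AA_integrand hf l
  unfold AA
  rw [intervalIntegral.integral_interval_sub_left (hc.intervalIntegrable _ _)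
    (hc.intervalIntegrable _ _)]
  have h1 : ∫ v in t..(t + x), cexp (-(l * v)) * f v
      = ∫ v in (0:ℝ)..x, cexp (-(l * ((t + v : ℝ) : ℂ))) * f (t + v) := by
    have := intervalIntegral.integral_comp_add_left (a := (0:ℝ)) (b := x)
      (fun v : ℝ => cexp (-(l * v)) * f v) t
    rw [add_zero] at this
    exact this.symm
  rw [h1, ← intervalIntegral.integral_const_mul]
  refine intervalIntegral.integral_congr fun v _ => ?_
  try simp only
  rw [← mul_assoc, ← Complex.exp_add]
  congr 2
  push_cast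
  ring

include ha hν hk hf in
/-- **The shift identity.** -/
theorem KK_shift (hrel : ∀ t, 0 ≤ t → ∫ s, k s * f (t + s) ∂ν = 0) {t : ℝ} (ht : 0 ≤ t) (l : ℂ) :
    KK ν a k (fun u => f (t + u)) l
      = cexp (l * t) * (KK ν a k f l - muh ν a k l * AA f l t) := by
  have hft : Continuous fun u => f (t + u) := by fun_prop
  -- the integrals are taken over `[0,a]`
  have hAc : Continuous fun x => AA f l x := by
    unfold AA
    exact intervalIntegral.continuous_primitive
      (fun _ _ => (continuous_AA_integrand hf l).intervalIntegrable _ _) _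
  have hint : ∀ {F : ℝ → ℂ}, Continuous F → Integrable (fun s => k s * F s) ν := by
    intro F hF
    obtain ⟨B, hB⟩ := (isCompact_Icc (a := (0:ℝ)) (b := a)).exists_bound_of_continuousOn
      hF.continuousOn
    refine hk.mul_bdd (c := B) hF.aestronglyMeasurable ?_
    filter_upwards [hν] with s hs
    exact hB s hs
  -- the vanishing term
  have hzero : ∫ s, k s * (cexp (l * s) * (AA f l (t + s) - AA f l s)) ∂ν = 0 := by
    have h1 : ∀ s : ℝ, cexp (l * s) * (AA f l (t + s) - AA f l s)
        = ∫ u in (0:ℝ)..t, cexp (-(l * u)) * f (u + s) := by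
      intro s
      have hc := continuous_AA_integrand hf l
      unfold AA
      rw [intervalIntegral.integral_interval_sub_left (hc.intervalIntegrable _ _)
        (hc.intervalIntegrable _ _)]
      have h2 : ∫ v in s..(t + s), cexp (-(l * v)) * f v
          = ∫ v in (0:ℝ)..t, cexp (-(l * ((v + s : ℝ) : ℂ))) * f (v + s) := by
        have := intervalIntegral.integral_comp_add_right (a := (0:ℝ)) (b := t)
          (fun v : ℝ => cexp (-(l * v)) * f v) s
        rw [zero_add] at this
        exact this.symm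
      rw [h2, ← intervalIntegral.integral_const_mul]
      refine intervalIntegral.integral_congr fun v _ => ?_
      try simp only
      rw [← mul_assoc, ← Complex.exp_add]
      congr 2
      push_cast
      ring
    simp only [h1]
    have h3 : ∀ s : ℝ, k s * ∫ u in (0:ℝ)..t, cexp (-(l * u)) * f (u + s)
        = ∫ u in Ioc (0:ℝ) t, k s * (cexp (-(l * u)) * f (u + s)) := by
      intro s
      rw [intervalIntegral.integral_of_le ht, ← integral_const_mul]
    simp only [h3]
    rw [integral_integral_swap]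
    · have h4 : ∀ u ∈ Ioc (0:ℝ) t, ∫ s, k s * (cexp (-(l * u)) * f (u + s)) ∂ν = 0 := by
        intro u hu
        have h5 : ∀ s, k s * (cexp (-(l * u)) * f (u + s)) = cexp (-(l * u)) * (k s * f (u + s)) :=
          fun s => by ring
        simp only [h5]
        rw [integral_const_mul, hrel u hu.1.le, mul_zero]
      rw [setIntegral_congr_fun measurableSet_Ioc h4]
      simp
    · have h6 : Integrable (fun p : ℝ × ℝ => k p.1) (ν.prod (volume.restrict (Ioc (0:ℝ) t))) :=
        hk.comp_fst _
      have hF : Continuous fun p : ℝ × ℝ => cexp (-(l * p.2)) * f (p.2 + p.1) := by fun_prop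
      obtain ⟨B, hB⟩ := ((isCompact_Icc (a := (0:ℝ)) (b := a)).prod
        (isCompact_Icc (a := (0:ℝ)) (b := t))).exists_bound_of_continuousOn hF.continuousOn
      refine h6.mul_bdd (c := B) hF.aestronglyMeasurable ?_
      have h7 : ∀ᵐ p ∂(ν.prod (volume.restrict (Ioc (0:ℝ) t))), p.1 ∈ Icc 0 a :=
        Measure.quasiMeasurePreserving_fst.ae hν
      have h8 : ∀ᵐ p ∂(ν.prod (volume.restrict (Ioc (0:ℝ) t))), p.2 ∈ Ioc 0 t :=
        Measure.quasiMeasurePreserving_snd.ae (ae_restrict_mem measurableSet_Ioc)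
      filter_upwards [h7, h8] with p hp1 hp2
      exact hB p ⟨hp1, Ioc_subset_Icc_self hp2⟩
  rw [KK_eq ha hν hk hft, KK_eq ha hν hk hf]
  have hmu : muh ν a k l = ∫ s, k s * cexp (l * s) ∂ν := by
    unfold muh lap
    refine integral_congr_ae ?_
    filter_upwards [hν] with s hs
    rw [cl_eq hs]
  rw [hmu, ← integral_mul_const, ← integral_sub (hint (by fun_prop))
    ((hint (F := fun s => cexp (l * s)) (by fun_prop)).mul_const _), ← integral_const_mul]
  have h9 : ∀ s : ℝ, k s * (cexp (l * s) * AA (fun u => f (t + u)) l s)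
      = cexp (l * t) * (k s * (cexp (l * s) * AA f l s) - k s * cexp (l * s) * AA f l t)
        + cexp (l * t) * (k s * (cexp (l * s) * (AA f l (t + s) - AA f l s))) := by
    intro s
    rw [AA_shift hf]
    ring
  simp only [h9]
  rw [integral_add, integral_const_mul (cexp (l * t)) (fun s => k s * (cexp (l * s) * (AA f l (t + s) - AA f l s))),
    hzero, mul_zero, add_zero]
  · exact (((hint (by fun_prop)).sub ((hint (F := fun s => cexp (l * s)) (by fun_prop)).mul_const _))).const_mul _
  · exact (hint (by fun_prop)).const_mul _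

end Pool.Agent.Y280.HC
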