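import Pool.Agent.Y280.HC.Shift
import Pool.Agent.Y280.HC.Quot
/-!
A function of exponential growth on the half-line which is annihilated by a compactly supported
measure and whose transform has no poles vanishes near infinity.
-/
set_option autoImplicit false
open MeasureTheory Filter Topology Complex Set
open scoped FourierTransform

namespace Pool.Agent.Y280.HC

variable {ν : Measure ℝ} [IsFiniteMeasure ν] {a : ℝ} (ha : 0 ≤ a) (hν : ∀ᵐ s ∂ν, s ∈ Icc 0 a)
  {k : ℝ → ℂ} (hk : Integrable k ν) {f : ℝ → ℂ} (hf : Continuous f)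

/-- bound for the partial Laplace integrals -/
theorem AA_norm_le (hf : Continuous f) {M ω : ℝ} (hM : 0 ≤ M)
    (hg : ∀ t, 0 ≤ t → ‖f t‖ ≤ M * Real.exp (ω * t)) {l : ℂ} (hl : ω < l.re) {t : ℝ} (ht : 0 ≤ t) :
    ‖AA f l t‖ ≤ M / (l.re - ω) := by
  have hδ : 0 < l.re - ω := by linarith
  unfold AA
  have h1 : ‖∫ v in (0:ℝ)..t, cexp (-(l * v)) * f v‖
      ≤ ∫ v in (0:ℝ)..t, M * Real.exp (-(l.re - ω) * v) := by
    refine intervalIntegral.norm_integral_le_of_norm_le ht ?_ ?_
    · refine Eventually.of_forall fun v hv => ?_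
      rw [norm_mul, Complex.norm_exp]
      have h2 : (-(l * v) : ℂ).re = -(l.re * v) := by simp
      rw [h2]
      calc Real.exp (-(l.re * v)) * ‖f v‖ ≤ Real.exp (-(l.re * v)) * (M * Real.exp (ω * v)) := by
            gcongr
            exact hg v hv.1.le
        _ = M * (Real.exp (-(l.re * v)) * Real.exp (ω * v)) := by ring
        _ = M * Real.exp (-(l.re - ω) * v) := by
            rw [← Real.exp_add]
            congr 2
            ring
    · exact Continuous.intervalIntegrable (by fun_prop) _ _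
  refine h1.trans ?_
  rw [intervalIntegral.integral_const_mul]
  have h3 : ∫ v in (0:ℝ)..t, Real.exp (-(l.re - ω) * v)
      = (1 - Real.exp (-(l.re - ω) * t)) / (l.re - ω) := by
    have h4 := intervalIntegral.integral_comp_mul_left (a := (0:ℝ)) (b := t)
      (fun v : ℝ => Real.exp v) (c := -(l.re - ω)) (by linarith [hδ] : -(l.re - ω) ≠ 0)
    rw [h4, integral_exp, mul_zero, Real.exp_zero, smul_eq_mul]
    field_simp
    ring
  rw [h3, ← mul_div_assoc]
  apply div_le_div_of_nonneg_right _ hδ.le
  have := Real.exp_pos (-(l.re - ω) * t)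
  nlinarith

include ha hν hk hf in
/-- the shifted transforms are small -/
theorem KK_shift_small {M ω : ℝ} (hM : 0 ≤ M) (hω : 0 ≤ ω)
    (hg : ∀ t, 0 ≤ t → ‖f t‖ ≤ M * Real.exp (ω * t)) (l : ℂ) :
    ∃ C : ℝ, ∀ t : ℝ, 0 ≤ t →
      ‖cexp (-(l * t)) * KK ν a k (fun u => f (t + u)) l‖ ≤ C * Real.exp ((ω - l.re) * t) := by
  refine ⟨(∫ p, ‖k p.1‖ ∂(rho ν a)) * (M * Real.exp (ω * a)) * Real.exp (a * ‖l‖),
    fun t ht => ?_⟩
  have hft : Continuous fun u => f (t + u) := by fun_prop
  have h1 := KK_norm_le (ν := ν) ha hk hft (B := M * Real.exp (ω * (t + a))) (fun u hu => by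
    refine (hg (t + u) (by linarith [hu.1])).trans ?_
    gcongr
    exact hu.2) (by positivity) l
  rw [norm_mul, Complex.norm_exp]
  have h2 : (-(l * t) : ℂ).re = -(l.re * t) := by simp
  rw [h2]
  calc Real.exp (-(l.re * t)) * ‖KK ν a k (fun u => f (t + u)) l‖
      ≤ Real.exp (-(l.re * t)) * ((∫ p, ‖k p.1‖ ∂(rho ν a)) * (M * Real.exp (ω * (t + a)))
        * Real.exp (a * ‖l‖)) := by gcongr
    _ = _ := by
      have h3 : Real.exp (ω * (t + a)) = Real.exp (ω * a) * Real.exp (ω * t) := by
        rw [← Real.exp_add]; congr 1; ring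
      have h4 : Real.exp ((ω - l.re) * t) = Real.exp (-(l.re * t)) * Real.exp (ω * t) := by
        rw [← Real.exp_add]; congr 1; ring
      rw [h3, h4]
      ring

theorem tendsto_exp_neg {δ : ℝ} (hδ : δ < 0) (C : ℝ) :
    Tendsto (fun t : ℝ => C * Real.exp (δ * t)) atTop (𝓝 0) := by
  have h1 : Tendsto (fun t : ℝ => δ * t) atTop atBot := tendsto_id.const_mul_atTop_of_neg hδ
  have h2 := (Real.tendsto_exp_atBot.comp h1).const_mul C
  simpa using h2

include ha hk in
/-- zeros of the transform are isolated -/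
theorem muh_isolated (hmu : ∃ l, muh ν a k l ≠ 0) (z : ℂ) : ∀ᶠ y in 𝓝[≠] z, muh ν a k y ≠ 0 := by
  obtain ⟨z1, hz1⟩ := hmu
  have hd : Differentiable ℂ (muh ν a k) := muh_differentiable ha hk
  have hAn : AnalyticOnNhd ℂ (muh ν a k) Set.univ := fun z _ => hd.analyticAt z
  rcases (hd.analyticAt z).eventually_eq_zero_or_eventually_ne_zero with h1 | h1
  · exfalso
    exact hz1 (hAn.eqOn_zero_of_preconnected_of_eventuallyEq_zero isPreconnected_univ
      (Set.mem_univ z) h1 (Set.mem_univ z1))
  · exact h1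

include ha hν hk hf in
/-- the quotient is the Laplace transform, hence bounded in a right half-plane -/
theorem right_bound (hmu : ∃ l, muh ν a k l ≠ 0) {M ω : ℝ} (hM : 0 ≤ M) (hω : 0 ≤ ω)
    (hg : ∀ t, 0 ≤ t → ‖f t‖ ≤ M * Real.exp (ω * t))
    (hrel : ∀ t, 0 ≤ t → ∫ s, k s * f (t + s) ∂ν = 0)
    {G : ℂ → ℂ} (hG : Differentiable ℂ G) (hGK : ∀ z, KK ν a k f z = muh ν a k z * G z)
    {l : ℂ} (hl : ω < l.re) : ‖G l‖ ≤ M / (l.re - ω) := by
  -- first at the points where `muh` does not vanish
  have h1 : ∀ l : ℂ, ω < l.re → muh ν a k l ≠ 0 → ‖G l‖ ≤ M / (l.re - ω) := by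
    intro l hl hne
    obtain ⟨C, hC⟩ := KK_shift_small (ν := ν) ha hν hk hf hM hω hg l
    have h2 : ∀ t : ℝ, 0 ≤ t → ‖G l‖ ≤ M / (l.re - ω) + C / ‖muh ν a k l‖ * Real.exp ((ω - l.re) * t) := by
      intro t ht
      have h3 := KK_shift ha hν hk hf hrel ht l
      rw [hGK] at h3
      have h4 : cexp (-(l * t)) * KK ν a k (fun u => f (t + u)) l
          = muh ν a k l * (G l - AA f l t) := by
        rw [h3, ← mul_assoc, ← Complex.exp_add, neg_add_cancel, Complex.exp_zero]
        ring
      have h5 := hC t ht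
      rw [h4, norm_mul] at h5
      have h6 : ‖G l - AA f l t‖ ≤ C / ‖muh ν a k l‖ * Real.exp ((ω - l.re) * t) := by
        rw [div_mul_eq_mul_div, le_div_iff₀ (norm_pos_iff.2 hne), mul_comm]
        exact h5
      have h7 := AA_norm_le hf hM hg hl ht
      have h8 : ‖G l‖ ≤ ‖AA f l t‖ + ‖G l - AA f l t‖ := by
        have := norm_add_le (AA f l t) (G l - AA f l t)
        rwa [add_sub_cancel] at this
      linarith
    have h9 : Tendsto (fun t : ℝ => M / (l.re - ω) + C / ‖muh ν a k l‖ * Real.exp ((ω - l.re) * t))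
        atTop (𝓝 (M / (l.re - ω) + 0)) := by
      refine tendsto_const_nhds.add ?_
      exact tendsto_exp_neg (by linarith) _
    rw [add_zero] at h9
    exact ge_of_tendsto h9 ((eventually_ge_atTop 0).mono fun t ht => h2 t ht)
  -- then everywhere, by continuity
  have h2 : ∀ᶠ y in 𝓝[≠] l, ‖G y‖ ≤ M / (y.re - ω) := by
    have h3 : ∀ᶠ y in 𝓝[≠] l, ω < y.re := by
      have : ∀ᶠ y in 𝓝 l, ω < y.re :=
        (Complex.continuous_re.tendsto l).eventually (lt_mem_nhds hl)
      exact this.filter_mono nhdsWithin_le_nhds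
    filter_upwards [muh_isolated ha hk hmu l, h3] with y e1 e2
    exact h1 y e2 e1
  have h3 : Tendsto (fun y => ‖G y‖) (𝓝[≠] l) (𝓝 ‖G l‖) :=
    (hG.continuous.norm.tendsto l).mono_left nhdsWithin_le_nhds
  have h4 : Tendsto (fun y : ℂ => M / (y.re - ω)) (𝓝[≠] l) (𝓝 (M / (l.re - ω))) := by
    have : Tendsto (fun y : ℂ => M / (y.re - ω)) (𝓝 l) (𝓝 (M / (l.re - ω))) := by
      refine tendsto_const_nhds.div ?_ (by linarith)
      exact ((Complex.continuous_re.tendsto l).sub tendsto_const_nhds)
    exact this.mono_left nhdsWithin_le_nhds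
  exact le_of_tendsto_of_tendsto h3 h4 h2

include ha hν hk hf in
/-- if the transform vanishes identically then so does the function -/
theorem zero_of_KK_zero (hmu : ∃ l, muh ν a k l ≠ 0) {M ω : ℝ} (hM : 0 ≤ M) (hω : 0 ≤ ω)
    (hg : ∀ t, 0 ≤ t → ‖f t‖ ≤ M * Real.exp (ω * t))
    (hrel : ∀ t, 0 ≤ t → ∫ s, k s * f (t + s) ∂ν = 0)
    (hKz : ∀ z, KK ν a k f z = 0) {v : ℝ} (hv : 0 < v) : f v = 0 := by
  set c : ℝ := ω + 1 with hc
  set h : ℝ → ℂ := (Ioi (0:ℝ)).indicator (fun u => cexp (-((c : ℂ) * u)) * f u) with hh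
  have hcont : Continuous fun u : ℝ => cexp (-((c : ℂ) * u)) * f u := by fun_prop
  have hon : IntegrableOn (fun u : ℝ => cexp (-((c : ℂ) * u)) * f u) (Ioi 0) := by
    have h1 : IntegrableOn (fun u : ℝ => M * Real.exp (-1 * u)) (Ioi 0) :=
      (integrableOn_exp_mul_Ioi (by norm_num) 0).const_mul M
    refine Integrable.mono' h1 hcont.aestronglyMeasurable ?_
    filter_upwards [ae_restrict_mem measurableSet_Ioi] with u hu
    rw [norm_mul, Complex.norm_exp]
    have h2 : (-((c : ℂ) * u) : ℂ).re = -(c * u) := by simp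
    rw [h2]
    have hu0 : 0 < u := hu
    calc Real.exp (-(c * u)) * ‖f u‖ ≤ Real.exp (-(c * u)) * (M * Real.exp (ω * u)) := by
          gcongr
          exact hg u hu0.le
      _ = M * (Real.exp (-(c * u)) * Real.exp (ω * u)) := by ring
      _ = M * Real.exp (-1 * u) := by
          rw [← Real.exp_add]
          congr 2
          rw [hc]
          ring
  have hint : Integrable h := hon.integrable_indicator measurableSet_Ioi
  -- the Fourier transform vanishes
  have hF : ∀ y : ℝ, muh ν a k (c + 2 * Real.pi * y * I) ≠ 0 → 𝓕 h y = 0 := by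
    intro y hy
    set l : ℂ := c + 2 * Real.pi * y * I with hl
    have hlre : l.re = c := by
      rw [hl]
      simp
    have hlω : ω < l.re := by rw [hlre, hc]; linarith
    have h1 : 𝓕 h y = ∫ u in Ioi (0:ℝ), cexp (-(l * u)) * f u := by
      rw [Real.fourier_real_eq_integral_exp_smul]
      rw [← integral_indicator measurableSet_Ioi]
      refine integral_congr_ae (Eventually.of_forall fun u => ?_)
      simp only [hh, smul_eq_mul]
      by_cases hu : u ∈ Ioi (0:ℝ)
      · rw [indicator_of_mem hu, indicator_of_mem hu, ← mul_assoc, ← Complex.exp_add]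
        congr 2
        rw [hl]
        push_cast
        ring
      · rw [indicator_of_notMem hu, indicator_of_notMem hu, mul_zero]
    rw [h1]
    have hon' : IntegrableOn (fun u : ℝ => cexp (-(l * u)) * f u) (Ioi 0) := by
      have hcont' : Continuous fun u : ℝ => cexp (-(l * u)) * f u := by fun_prop
      refine Integrable.mono' hon.norm hcont'.aestronglyMeasurable (Eventually.of_forall fun u => ?_)
      rw [norm_mul, norm_mul, Complex.norm_exp, Complex.norm_exp]
      have e1 : (-(l * u) : ℂ).re = -(c * u) := by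
        have : (-(l * u) : ℂ).re = -(l.re * u) := by simp
        rw [this, hlre]
      have e2 : (-((c : ℂ) * u) : ℂ).re = -(c * u) := by simp
      rw [e1, e2]
    have h2 : Tendsto (fun t : ℝ => AA f l t) atTop (𝓝 (∫ u in Ioi (0:ℝ), cexp (-(l * u)) * f u)) :=
      intervalIntegral_tendsto_integral_Ioi 0 hon' tendsto_id
    have h3 : Tendsto (fun t : ℝ => AA f l t) atTop (𝓝 0) := by
      obtain ⟨C, hC⟩ := KK_shift_small (ν := ν) ha hν hk hf hM hω hg l
      rw [tendsto_zero_iff_norm_tendsto_zero]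
      refine squeeze_zero' (Eventually.of_forall fun _ => norm_nonneg _) ?_
        (tendsto_exp_neg (by linarith : ω - l.re < 0) (C / ‖muh ν a k l‖))
      filter_upwards [eventually_ge_atTop 0] with t ht
      have h4 := KK_shift ha hν hk hf hrel ht l
      rw [hKz] at h4
      have h5 : cexp (-(l * t)) * KK ν a k (fun u => f (t + u)) l = -(muh ν a k l * AA f l t) := by
        rw [h4, ← mul_assoc, ← Complex.exp_add, neg_add_cancel, Complex.exp_zero]
        ring
      have h6 := hC t ht
      rw [h5, norm_neg, norm_mul] at h6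
      rw [div_mul_eq_mul_div, le_div_iff₀ (norm_pos_iff.2 hy), mul_comm]
      exact h6
    exact tendsto_nhds_unique h2 h3
  have hFc : Continuous (𝓕 h) := by
    have := VectorFourier.fourierIntegral_continuous (μ := volume) Real.continuous_fourierChar
      (L := innerₗ ℝ) (by exact continuous_inner) hint
    exact this
  have hF0 : 𝓕 h = 0 := by
    funext y
    have h1 : ∀ᶠ y' in 𝓝[≠] y, 𝓕 h y' = 0 := by
      have h2 : Tendsto (fun y' : ℝ => (c + 2 * Real.pi * y' * I : ℂ)) (𝓝[≠] y)
          (𝓝[≠] (c + 2 * Real.pi * y * I : ℂ)) := by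
        refine tendsto_nhdsWithin_of_tendsto_nhds_of_eventually_within _ ?_ ?_
        · have : Continuous fun y' : ℝ => (c + 2 * Real.pi * y' * I : ℂ) := by fun_prop
          exact (this.tendsto y).mono_left nhdsWithin_le_nhds
        · filter_upwards [self_mem_nhdsWithin] with y' hy' heq
          apply hy'
          have h3 := congrArg Complex.im heq
          simp at h3
          have h4 : (y' : ℝ) = y := by
            have hpi := Real.pi_ne_zero
            exact h3
          exact h4
      filter_upwards [h2.eventually (muh_isolated ha hk hmu _)] with y' hy'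
      exact hF y' hy'
    have h2 : Tendsto (𝓕 h) (𝓝[≠] y) (𝓝 (𝓕 h y)) := (hFc.tendsto y).mono_left nhdsWithin_le_nhds
    have h3 : Tendsto (𝓕 h) (𝓝[≠] y) (𝓝 0) := by
      refine Tendsto.congr' ?_ tendsto_const_nhds
      filter_upwards [h1] with y' hy'
      exact hy'.symm
    exact tendsto_nhds_unique h2 h3
  have hca : ContinuousAt h v := by
    have : h =ᶠ[𝓝 v] fun u => cexp (-((c : ℂ) * u)) * f u := by
      filter_upwards [Ioi_mem_nhds hv] with u hu
      rw [hh, indicator_of_mem hu]
    exact (hcont.continuousAt).congr this.symm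
  have hinv := hint.fourierInv_fourier_eq (by rw [hF0]; exact integrable_zero _ _ _) hca
  rw [hF0] at hinv
  have h10 : h v = 0 := by
    rw [← hinv, Real.fourierInv_eq]
    simp
  rw [hh, indicator_of_mem (show v ∈ Ioi (0:ℝ) from hv)] at h10
  exact (mul_eq_zero.1 h10).resolve_left (Complex.exp_ne_zero _)

include ha hν hk hf in
/-- **Vanishing near infinity.** -/
theorem vanish (hmu : ∃ l, muh ν a k l ≠ 0) {M ω : ℝ} (hM : 0 ≤ M) (hω : 0 ≤ ω)
    (hg : ∀ t, 0 ≤ t → ‖f t‖ ≤ M * Real.exp (ω * t))
    (hrel : ∀ t, 0 ≤ t → ∫ s, k s * f (t + s) ∂ν = 0)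
    (hord : ∀ z : ℂ, ∀ n : ℕ, (∀ i ≤ n, iteratedDeriv i (muh ν a k) z = 0) →
      ∀ i ≤ n, iteratedDeriv i (KK ν a k f) z = 0) :
    ∃ b, 0 ≤ b ∧ ∀ t, b < t → f t = 0 := by
  obtain ⟨G, hG, hGK⟩ := exists_quotient (KK_differentiable ha hk hf) (muh_differentiable ha hk)
    hmu hord
  -- exponential type
  obtain ⟨B, hB⟩ := (isCompact_Icc (a := (0:ℝ)) (b := a)).exists_bound_of_continuousOn hf.continuousOn
  have hK1 := KK_norm_le (ν := ν) ha hk hf (B := max B 0)
    (fun u hu => (hB u hu).trans (le_max_left _ _)) (le_max_right _ _)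
  have hm1 : ∀ z, ‖muh ν a k z‖ ≤ (∫ x, ‖k x‖ ∂ν) * Real.exp (a * ‖z‖) := fun z =>
    lap_norm_le hk (measurable_cl a) (fun _ => cl_nonneg _ _) (fun _ => cl_le ha _) z
  set C : ℝ := (∫ x, ‖k x‖ ∂ν) + (∫ p, ‖k p.1‖ ∂(rho ν a)) * max B 0 with hC
  have hC1 : 0 ≤ ∫ x, ‖k x‖ ∂ν := integral_nonneg fun _ => norm_nonneg _
  have hC2 : 0 ≤ (∫ p, ‖k p.1‖ ∂(rho ν a)) * max B 0 :=
    mul_nonneg (integral_nonneg fun _ => norm_nonneg _) (le_max_right _ _)
  obtain ⟨C', A, hC', hA, hGb⟩ := quot_exp (muh ν a k) G (muh_differentiable ha hk) hG hmu C a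
    (fun z => (hm1 z).trans (by gcongr; rw [hC]; linarith))
    (fun z => by
      rw [← hGK]
      exact (hK1 z).trans (by gcongr; rw [hC]; linarith))
  have hR := fun {l : ℂ} (hl : ω < l.re) => right_bound ha hν hk hf hmu hM hω hg hrel hG hGK hl
  set c : ℝ := ω + 1 with hc
  have hline : ∀ y : ℝ, ‖G (c + y * I)‖ ≤ M := by
    intro y
    have h1 : (c + y * I : ℂ).re = c := by simp
    have h2 := hR (l := c + y * I) (by rw [h1, hc]; linarith)
    have h3 : c - ω = 1 := by rw [hc]; ring
    rw [h1, h3, div_one] at h2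
    exact h2
  have hleft := left_bound hG hC' hA hGb hline
  -- the shifted function
  refine ⟨A, hA, ?_⟩
  set b : ℝ := A with hb
  set fb : ℝ → ℂ := fun u => f (b + u) with hfb
  have hfbc : Continuous fb := by rw [hfb]; fun_prop
  have hfbrel : ∀ t, 0 ≤ t → ∫ s, k s * fb (t + s) ∂ν = 0 := by
    intro t ht
    have := hrel (b + t) (by linarith)
    rw [← this]
    refine integral_congr_ae (Eventually.of_forall fun s => ?_)
    simp only [hfb, add_assoc]
  have hfbg : ∀ t, 0 ≤ t → ‖fb t‖ ≤ (M * Real.exp (ω * b)) * Real.exp (ω * t) := by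
    intro t ht
    refine (hg (b + t) (by linarith)).trans (le_of_eq ?_)
    rw [mul_assoc, ← Real.exp_add]
    congr 2
    ring
  set Gb : ℂ → ℂ := fun l => cexp (l * b) * (G l - AA f l b) with hGb'
  have hAAd : Differentiable ℂ fun l => AA f l b := by
    intro l0
    have h1 : (fun l => AA f l b) = fun l => cexp (-(l * b)) *
        lap (volume.restrict (Ioc 0 b)) f (fun u => cl b (b - u)) l := by
      funext l
      unfold AA lap
      rw [intervalIntegral.integral_of_le hA, ← integral_const_mul]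
      refine setIntegral_congr_fun measurableSet_Ioc fun u hu => ?_
      have h2 : cl b (b - u) = b - u := cl_eq ⟨by linarith [hu.2], by linarith [hu.1.le]⟩
      simp only [h2]
      rw [mul_comm (f u), ← mul_assoc, ← Complex.exp_add]
      congr 2
      push_cast
      ring
    rw [h1]
    have h3 : Integrable f (volume.restrict (Ioc 0 b)) :=
      (hf.integrableOn_Icc (a := (0:ℝ)) (b := b)).mono_set Ioc_subset_Icc_self
    have h4 := lap_differentiable h3 (w := fun u => cl b (b - u)) (a := b)
      ((measurable_cl b).comp (measurable_const.sub measurable_id)) (fun _ => cl_nonneg _ _)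
      (fun _ => cl_le hA _)
    have h5 : Differentiable ℂ fun l : ℂ => cexp (-(l * b)) := by fun_prop
    exact (h5.mul h4) l0
  have hGbd : Differentiable ℂ Gb := by
    have h5 : Differentiable ℂ fun l : ℂ => cexp (l * b) := by fun_prop
    exact h5.mul (hG.sub hAAd)
  have hGbK : ∀ z, KK ν a k fb z = muh ν a k z * Gb z := by
    intro z
    rw [hfb, KK_shift ha hν hk hf hrel hA z, hGK]
    simp only [hGb']
    ring
  have hRb := fun {l : ℂ} (hl : ω < l.re) => right_bound ha hν hk hfbc hmu
    (mul_nonneg hM (Real.exp_pos _).le) hω hfbg hfbrel hGbd hGbK hl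
  -- `Gb` is bounded
  have hbdd : Bornology.IsBounded (Set.range Gb) := by
    obtain ⟨D, hD⟩ := (isCompact_Icc (a := (0:ℝ)) (b := b)).exists_bound_of_continuousOn hf.continuousOn
    rw [isBounded_iff_forall_norm_le]
    refine ⟨max (M * Real.exp (ω * b)) (M * Real.exp (b * c) + b * (Real.exp (c * b) * max D 0)), ?_⟩
    rintro _ ⟨l, rfl⟩
    by_cases hl : c ≤ l.re
    · refine le_trans ?_ (le_max_left _ _)
      have h1 := hRb (l := l) (by rw [hc] at hl; linarith)
      refine h1.trans (div_le_self (by positivity) ?_)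
      rw [hc] at hl
      linarith
    · push Not at hl
      refine le_trans ?_ (le_max_right _ _)
      simp only [hGb']
      rw [mul_sub]
      refine (norm_sub_le _ _).trans (add_le_add ?_ ?_)
      · rw [norm_mul, Complex.norm_exp]
        have h1 : (l * b : ℂ).re = l.re * b := by simp
        rw [h1]
        have h2 := hleft l hl.le
        calc Real.exp (l.re * b) * ‖G l‖ ≤ Real.exp (l.re * b) * (M * Real.exp (A * (c - l.re))) := by
              gcongr
          _ = M * (Real.exp (l.re * b) * Real.exp (A * (c - l.re))) := by ring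
          _ = M * Real.exp (b * c) := by
              rw [← Real.exp_add]
              congr 2
              rw [hb]
              ring
      · have h1 : cexp (l * b) * AA f l b = ∫ u in (0:ℝ)..b, cexp (l * ((b - u : ℝ) : ℂ)) * f u := by
          unfold AA
          rw [← intervalIntegral.integral_const_mul]
          refine intervalIntegral.integral_congr fun u _ => ?_
          try simp only
          rw [← mul_assoc, ← Complex.exp_add]
          congr 2
          push_cast
          ring
        rw [h1]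
        have h2 := intervalIntegral.norm_integral_le_of_norm_le_const (a := (0:ℝ)) (b := b)
          (f := fun u : ℝ => cexp (l * ((b - u : ℝ) : ℂ)) * f u)
          (C := Real.exp (c * b) * max D 0) (fun u hu => by
            rw [uIoc_of_le hA] at hu
            rw [norm_mul, Complex.norm_exp]
            have h3 : (l * ((b - u : ℝ) : ℂ)).re = l.re * (b - u) := by simp
            rw [h3]
            have h4 : l.re * (b - u) ≤ c * b := by
              have hbu : 0 ≤ b - u := by linarith [hu.2]
              have hc0 : 0 ≤ c := by rw [hc]; linarith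
              calc l.re * (b - u) ≤ c * (b - u) := mul_le_mul_of_nonneg_right hl.le hbu
                _ ≤ c * b := mul_le_mul_of_nonneg_left (by linarith [hu.1]) hc0
            have h5 := (hD u ⟨hu.1.le, hu.2⟩).trans (le_max_left D 0)
            exact mul_le_mul (Real.exp_le_exp.2 h4) h5 (norm_nonneg _) (Real.exp_pos _).le)
        rw [sub_zero, abs_of_nonneg hA] at h2
        refine h2.trans (le_of_eq ?_)
        ring
  -- Liouville
  have hGb0 : ∀ z, Gb z = 0 := by
    intro z
    have h1 : ∀ x : ℝ, Gb z = Gb x := fun x => hGbd.apply_eq_apply_of_bounded hbdd z x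
    have h2 : ∀ x : ℝ, ω < x → ‖Gb z‖ ≤ (M * Real.exp (ω * b)) / (x - ω) := by
      intro x hx
      rw [h1 x]
      have := hRb (l := (x : ℂ)) (by simpa using hx)
      simpa using this
    have h3 : Tendsto (fun x : ℝ => (M * Real.exp (ω * b)) / (x - ω)) atTop (𝓝 0) :=
      tendsto_const_nhds.div_atTop (tendsto_atTop_add_const_right _ _ tendsto_id)
    have h4 : ‖Gb z‖ ≤ 0 := ge_of_tendsto h3 ((eventually_gt_atTop ω).mono fun x hx => h2 x hx)
    exact norm_le_zero_iff.1 h4
  intro t ht
  have hfin := zero_of_KK_zero ha hν hk hfbc hmu (mul_nonneg hM (Real.exp_pos _).le) hω hfbg hfbrel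
    (fun z => by rw [hGbK, hGb0, mul_zero]) (v := t - b) (by linarith)
  simp only [hfb] at hfin
  rwa [add_sub_cancel] at hfin

end Pool.Agent.Y280.HC
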